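import Mathlib
import Pool.Agent.Q171.IR.Class

/-! # Planar sets on which continuous injections are embeddings: the classification

The set `{x | 1 ≤ ‖x‖}` is a locally compact nonseparating set, neither compact nor open, on which
every continuous injection into the plane is an embedding (starting files `ClosedExterior` and
`RigidityCriterion`). Here we show that the sets with these properties are exactly the closed
connected sets with (connected, nonempty) bounded complement, and that there is no such set if
nonseparating refers to the sphere instead of the plane. -/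

set_option autoImplicit false

noncomputable section

namespace Pool.Agent.Results.MP_fef6c2_gt.RigidPlanarSets

open Set Filter Topology Metric
open Pool.Agent.Q171.IR

/-- The plane. -/
abbrev Plane := EuclideanSpace ℝ (Fin 2)

/-- `X` is nonseparating: its complement is connected. -/
def Nonseparating (X : Set Plane) : Prop := IsConnected Xᶜ

/-- Every continuous injection of `X` into the plane is a homeomorphism onto its image. -/
def InjectivelyRigid (X : Set Plane) : Prop :=
  ∀ f : X → Plane, Continuous f → Function.Injective f → IsEmbedding f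

/-- the identification of `ℂ` with the plane -/
def phi : ℂ ≃ₗᵢ[ℝ] Plane := Complex.orthonormalBasisOneI.repr

def Phi : ℂ ≃ₜ Plane := phi.toHomeomorph

theorem Phi_apply (z : ℂ) : Phi z = phi z := rfl

/-- the induced homeomorphism -/
def ee (X : Set Plane) : (Phi ⁻¹' X : Set ℂ) ≃ₜ X :=
  Phi.subtype (p := (· ∈ (Phi ⁻¹' X : Set ℂ))) (q := (· ∈ X)) (fun _ => Iff.rfl)

theorem rigid_iff (X : Set Plane) : InjectivelyRigid X ↔ ¬ NotRigid (Phi ⁻¹' X) := by
  constructor
  · rintro h ⟨f, hf, hi, hne⟩
    apply hne
    have h1 := h (Phi ∘ f ∘ (ee X).symm)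
      (Phi.continuous.comp (hf.comp (ee X).symm.continuous))
      (Phi.injective.comp (hi.comp (ee X).symm.injective))
    have h2 : f = Phi.symm ∘ (Phi ∘ f ∘ (ee X).symm) ∘ (ee X) := by
      funext x; simp
    rw [h2]
    exact Phi.symm.isEmbedding.comp (h1.comp (ee X).isEmbedding)
  · intro h f hf hi
    by_contra hne
    refine h ⟨Phi.symm ∘ f ∘ (ee X), Phi.symm.continuous.comp (hf.comp (ee X).continuous),
      Phi.symm.injective.comp (hi.comp (ee X).injective), fun h1 => hne ?_⟩
    have h2 : f = Phi ∘ (Phi.symm ∘ f ∘ (ee X)) ∘ (ee X).symm := by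
      funext x; simp
    rw [h2]
    exact Phi.isEmbedding.comp (h1.comp (ee X).symm.isEmbedding)

theorem bounded_iff (S : Set Plane) :
    Bornology.IsBounded (Phi ⁻¹' S : Set ℂ) ↔ Bornology.IsBounded S := by
  constructor
  · intro h
    have h1 := phi.lipschitz.isBounded_image h
    have h2 : phi '' (Phi ⁻¹' S) = S := Phi.surjective.image_preimage S
    rwa [h2] at h1
  · intro h
    exact phi.antilipschitz.isBounded_preimage h

theorem locComp (X : Set Plane) [LocallyCompactSpace X] :
    LocallyCompactSpace (Phi ⁻¹' X : Set ℂ) :=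
  (ee X).isClosedEmbedding.locallyCompactSpace

theorem onePoint_pre {X : Set Plane}
    (h : IsPreconnected ((((↑) : Plane → OnePoint Plane) '' X)ᶜ)) :
    IsPreconnected ((((↑) : ℂ → OnePoint ℂ) '' (Phi ⁻¹' X))ᶜ) := by
  have h1 := Phi.onePointCongr.isPreconnected_preimage.2 h
  have h2 : (Phi.onePointCongr : OnePoint ℂ → OnePoint Plane) ⁻¹'
      ((((↑) : Plane → OnePoint Plane) '' X)ᶜ) = (((↑) : ℂ → OnePoint ℂ) '' (Phi ⁻¹' X))ᶜ := by
    ext s
    induction s using OnePoint.rec with
    | infty =>
      constructor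
      · rintro - ⟨z, -, hz⟩
        exact OnePoint.coe_ne_infty z hz
      · rintro - ⟨z, -, hz⟩
        exact OnePoint.coe_ne_infty z hz
    | coe z =>
      constructor
      · rintro hz ⟨w, hw, hwz⟩
        exact hz ⟨Phi z, by rw [← OnePoint.coe_injective hwz]; exact hw, rfl⟩
      · rintro hz ⟨w, hw, hwz⟩
        have h3 : w = Phi z := OnePoint.coe_injective hwz
        exact hz ⟨z, by rw [h3] at hw; exact hw, rfl⟩
  rw [← h2]
  exact h1

theorem closed_rigid {X : Set Plane} (hcl : IsClosed X) (hc : IsConnected X)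
    (hb : Bornology.IsBounded Xᶜ) : InjectivelyRigid X := by
  rw [rigid_iff]
  rintro ⟨f, hf, hi, hne⟩
  refine hne (rigid ?_ (Phi.isClosed_preimage.2 hcl)
    (Phi.isPreconnected_preimage.2 hc.isPreconnected) hf hi)
  rw [← preimage_compl, bounded_iff]
  exact hb

/-- the set `{x | 1 ≤ ‖x‖}` -/
def Ex : Set Plane := {x | 1 ≤ ‖x‖}

theorem Ex_compl : Exᶜ = ball (0 : Plane) 1 := by
  ext x
  rw [mem_compl_iff, mem_ball, dist_zero_right]
  show ¬ (1 ≤ ‖x‖) ↔ ‖x‖ < 1
  exact not_le

theorem Ex_closed : IsClosed Ex := isClosed_le continuous_const continuous_norm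

theorem Ex_connected : IsConnected Ex := by
  have h1 : Ex = Phi '' {z : ℂ | 1 ≤ ‖z‖} := by
    ext x
    constructor
    · intro hx
      refine ⟨Phi.symm x, ?_, Phi.apply_symm_apply x⟩
      show 1 ≤ ‖phi.symm x‖
      rw [LinearIsometryEquiv.norm_map]
      exact hx
    · rintro ⟨z, hz, rfl⟩
      show 1 ≤ ‖phi z‖
      rw [LinearIsometryEquiv.norm_map]
      exact hz
  have h2 : {z : ℂ | 1 ≤ ‖z‖} = Complex.exp '' {w | 0 ≤ w.re} := by
    ext z
    constructor
    · intro hz
      have hz' : 1 ≤ ‖z‖ := hz
      have hne : z ≠ 0 := norm_pos_iff.1 (by linarith)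
      refine ⟨Complex.log z, ?_, Complex.exp_log hne⟩
      show 0 ≤ (Complex.log z).re
      rw [Complex.log_re]
      exact Real.log_nonneg hz'
    · rintro ⟨w, hw, rfl⟩
      show 1 ≤ ‖Complex.exp w‖
      rw [Complex.norm_exp]
      exact Real.one_le_exp hw
  have h3 : Convex ℝ {w : ℂ | 0 ≤ w.re} := convex_halfSpace_re_ge 0
  have h4 : IsConnected {w : ℂ | 0 ≤ w.re} := h3.isConnected ⟨0, by simp⟩
  rw [h1, h2]
  exact (h4.image _ Complex.continuous_exp.continuousOn).image _ Phi.continuous.continuousOn

theorem Ex_not_bounded : ¬ Bornology.IsBounded Ex := by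
  intro h
  obtain ⟨R, hR⟩ := h.subset_closedBall 0
  have h1 : ‖phi ((|R| + 1 : ℝ) : ℂ)‖ = |R| + 1 := by
    rw [LinearIsometryEquiv.norm_map, Complex.norm_real, Real.norm_of_nonneg (by positivity)]
  have h2 : phi ((|R| + 1 : ℝ) : ℂ) ∈ Ex := by
    show 1 ≤ ‖phi ((|R| + 1 : ℝ) : ℂ)‖
    rw [h1]
    linarith [abs_nonneg R]
  have h3 := hR h2
  rw [mem_closedBall, dist_zero_right, h1] at h3
  linarith [le_abs_self R]

theorem Ex_not_open : ¬ IsOpen Ex := by
  intro h
  have h1 : IsClopen Ex := ⟨Ex_closed, h⟩
  rcases isClopen_iff.1 h1 with h2 | h2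
  · exact Ex_not_bounded (by rw [h2]; exact Bornology.isBounded_empty)
  · have h3 : (0 : Plane) ∈ Ex := by rw [h2]; trivial
    have h4 : (1 : ℝ) ≤ ‖(0 : Plane)‖ := h3
    rw [norm_zero] at h4
    linarith

/-- **Classification of the injectively rigid sets.** Let `X` be a locally compact subset of the
plane which is neither compact nor open. (1) If the complement of `X` is connected, then `X` is
injectively rigid if and only if it is closed and connected and its complement is bounded. (2) If
the complement of `X` in the sphere is connected, then `X` is not injectively rigid. -/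
theorem result :
    (∀ X : Set Plane, LocallyCompactSpace X → Nonseparating X → ¬ IsCompact X → ¬ IsOpen X →
      (InjectivelyRigid X ↔ IsClosed X ∧ IsConnected X ∧ Bornology.IsBounded Xᶜ)) ∧
    (∀ X : Set Plane, LocallyCompactSpace X → ¬ IsCompact X → ¬ IsOpen X →
      IsConnected (((fun x : Plane => (x : OnePoint Plane)) '' X)ᶜ) → ¬ InjectivelyRigid X) := by
  refine ⟨?_, ?_⟩
  · intro X hX hn hnc hno
    refine ⟨fun hr => ?_, fun h => closed_rigid h.1 h.2.1 h.2.2⟩
    have := locComp X
    have h1 : IsPreconnected (Phi ⁻¹' X : Set ℂ)ᶜ := by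
      rw [← preimage_compl]
      exact Phi.isPreconnected_preimage.2 hn.isPreconnected
    obtain ⟨h2, h3, h4⟩ := planar h1 (fun h => hnc (Phi.isCompact_preimage.1 h))
      (fun h => hno (Phi.isOpen_preimage.1 h)) ((rigid_iff X).1 hr)
    refine ⟨Phi.isClosed_preimage.1 h2, ⟨?_, Phi.isPreconnected_preimage.1 h3⟩, ?_⟩
    · by_contra h
      rw [not_nonempty_iff_eq_empty] at h
      exact hno (by rw [h]; exact isOpen_empty)
    · rw [← preimage_compl, bounded_iff] at h4
      exact h4
  · intro X hX hnc hno hS hr
    have := locComp X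
    exact (rigid_iff X).1 hr (spherical (onePoint_pre hS.isPreconnected)
      (fun h => hnc (Phi.isCompact_preimage.1 h)) (fun h => hno (Phi.isOpen_preimage.1 h)))

end Pool.Agent.Results.MP_fef6c2_gt.RigidPlanarSets
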